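import Pool.Agent.H58.Mult.Power

/-! # A bounded power of every numerical candidate is a multiplier (MP_3e22f2_co) -/

set_option autoImplicit false

namespace Pool.Agent.H58.Kept.PowerMultiplier

open Pool.Agent.H58.Mult

/-- Let `D` be a non-trivial cyclic `(v, k, lam)`-difference set of order `k - lam = m * n₁` prime
to `v`, and let `t` be a unit modulo `v` which is, modulo `v`, a power of every prime dividing
`n₁`. Then some power `t ^ i` with
`1 ≤ i ≤ (8 ^ m ^ 2 + 1) * (8 ^ m ^ 2 * (2 * m + 1) + 1) ^ m ^ 2` is a multiplier of `D`. -/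
theorem result (v : ℕ) (D : Finset (ZMod v)) (lam m n₁ : ℕ) (h1 : 1 < D.card)
    (h2 : D.card + 1 < v)
    (hD : ∀ α : ZMod v, α ≠ 0 → ((D ×ˢ D).filter (fun p => p.1 - p.2 = α)).card = lam)
    (hn : D.card = lam + m * n₁) (hcop : Nat.Coprime (m * n₁) v) (t : (ZMod v)ˣ)
    (ht : ∀ p : ℕ, p.Prime → p ∣ n₁ → ∃ j : ℕ, (t : ZMod v) = (p : ZMod v) ^ j) :
    ∃ i : ℕ, 1 ≤ i ∧ i ≤ (8 ^ m ^ 2 + 1) * (8 ^ m ^ 2 * (2 * m + 1) + 1) ^ m ^ 2 ∧ ∃ s : ZMod v,
      D.image (fun x => ((t ^ i : (ZMod v)ˣ) : ZMod v) * x) = D.image (fun x => x + s) := by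
  have hv : NeZero v := ⟨by omega⟩
  have hpos : 0 < m * n₁ := by
    rcases Nat.eq_zero_or_pos (m * n₁) with h | h
    · rw [h, Nat.coprime_zero_left] at hcop
      omega
    · exact h
  have hm : 0 < m := Nat.pos_of_mul_pos_right hpos
  have hn1 : 0 < n₁ := Nat.pos_of_mul_pos_left hpos
  have hds : IsDS D (lam : ℤ) := by
    intro α hα
    have h := hD α hα
    unfold cnt
    rw [← h, Finset.card_filter, Finset.sum_product]
    push_cast
    simp only [one_mul]
  exact power_mult hds hm hn1 (by rw [hn]; push_cast; ring) hcop t ht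

end Pool.Agent.H58.Kept.PowerMultiplier
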